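import Pool.Agent.Helper75.PX.Stmts4

/-! Row C3d of project PX (MP_ce4989_al): degree three, simplest cubic, characteristic two
included. -/

set_option autoImplicit false

universe u

open Module TensorProduct

namespace Pool.Agent.Helper75.PX

/-- the generators are carried over by algebra homomorphisms -/
theorem C3d_map {K A B : Type*} [Field K] [Ring A] [Algebra K A] [Ring B] [Algebra K B]
    (f : A →ₐ[K] B) {y u : A} {t c : K} (h : D3c y u t c) : D3c (f y) (f u) t c where
  hy := by
    simpa only [map_mul, map_add, map_smul, map_one] using congrArg f h.hy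
  huy := by
    have := congrArg f h.huy
    simpa only [map_mul, map_sub, map_smul, map_ofNat] using this
  hu := by
    have := congrArg f h.hu
    simpa only [map_mul, AlgHom.commutes] using this
  c0 := h.c0

/-- the matrices -/
theorem C3d_mat {K : Type*} [Field K] (s : K) (hs : s ≠ 0) (hs1 : s + 1 ≠ 0) :
    D3c (!![s, 0, 0; 0, -1 / (s + 1), 0; 0, 0, -(s + 1) / s] : Matrix (Fin 3) (Fin 3) K)
      (!![0, 1, 0; 0, 0, 1; 1, 0, 0] : Matrix (Fin 3) (Fin 3) K)
      (s - 1 / (s + 1) - (s + 1) / s : K) (1 : K) := by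
  refine ⟨?_, ?_, ?_, one_ne_zero⟩
  · ext i j
    fin_cases i <;> fin_cases j <;> simp [Matrix.mul_apply, Fin.sum_univ_three] <;>
      field_simp <;> ring
  · have e : (2 : Matrix (Fin 3) (Fin 3) K) = !![2, 0, 0; 0, 2, 0; 0, 0, 2] := by
      rw [← Matrix.diagonal_ofNat']
      ext i j
      fin_cases i <;> fin_cases j <;> simp [Matrix.diagonal]
    rw [e]
    ext i j
    fin_cases i <;> fin_cases j <;> simp [Matrix.mul_apply, Fin.sum_univ_three] <;>
      field_simp <;> ring
  · rw [map_one]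
    ext i j
    fin_cases i <;> fin_cases j <;> simp [Matrix.mul_apply, Fin.sum_univ_three]

theorem st_C3d (h1 : ST_WA.{u}) (h2 : ST_X3.{u}) (h3 : ST_Y3.{u}) : ST_C3d.{u} := by
  intro K A _ _ _ _ _ hA h3' hs hζ
  obtain ⟨s, hs0, hs1⟩ := hs
  have : FiniteDimensional K A := FiniteDimensional.of_finrank_pos (by omega)
  obtain ⟨n, D, _, _, hn, _, _, hf, ⟨e⟩⟩ := h1 K A
  rw [hA] at hf
  have hD : 0 < finrank K D := finrank_pos
  have hn3 : n = 1 ∨ n = 3 := by
    have hle : n ≤ 3 := by
      by_contra hc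
      have : 4 ≤ n := by omega
      nlinarith
    interval_cases n
    · exact Or.inl rfl
    · omega
    · exact Or.inr rfl
  rcases hn3 with rfl | rfl
  · have hD9 : finrank K D = 9 := by omega
    obtain ⟨u, x, c, hc, hu, hx, hne⟩ := h2 K D hD9 h3' hζ
    obtain ⟨y, t, hy⟩ := h3 K D hD9 u x c hc hu hx hne
    have k1 := C3d_map (Matrix.scalarAlgHom (Fin 1) K) hy
    exact ⟨_, _, _, _, C3d_map e.symm.toAlgHom k1⟩
  · have k1 := C3d_map ((Algebra.ofId K D).mapMatrix (m := Fin 3)) (C3d_mat s hs0 hs1)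
    exact ⟨_, _, _, _, C3d_map e.symm.toAlgHom k1⟩

end Pool.Agent.Helper75.PX
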